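import Pool.Agent.Helper70.BU.Goals

/-!
# Project TW, part BU: packet APXP
-/

namespace Pool.Agent.Helper39.BU

open MvPolynomial Finset Pool.Agent.Helper70.BU

theorem apxP (hB : APXB) (hC : APXC) : APXP := by
  intro ι κ _ _ _ _ b F χ hF
  obtain ⟨hc, hz, hzc⟩ := hB ι κ b
  obtain ⟨c0, cneg, cadd, cmul⟩ := hC ι κ b
  have hpow : ∀ G ψ, Apx b G ψ → ∀ n : ℕ, Apx b (fun z => G z ^ n) (n • ψ) := by
    intro G ψ hG n
    induction n with
    | zero => simpa using hc 1
    | succ n ih =>
      have h1 := cmul _ _ _ _ ih hG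
      have e1 : (fun z => G z ^ (n + 1)) = fun z => G z ^ n * G z := by
        funext z; rw [pow_succ]
      rw [e1, succ_nsmul]
      exact h1
  have hprod : ∀ (s : Finset ι) (G : ι → (ι → ℂ) → ℂ) (ψ : ι → κ → ℤ), (∀ i, Apx b (G i) (ψ i)) →
      Apx b (fun z => ∏ i ∈ s, G i z) (∑ i ∈ s, ψ i) := by
    intro s G ψ hG
    induction s using Finset.induction_on with
    | empty => simpa using hc 1
    | insert i s hi ih =>
      have h1 := cmul _ _ _ _ (hG i) ih
      have e1 : (fun z => ∏ j ∈ insert i s, G j z) = fun z => G i z * ∏ j ∈ s, G j z := by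
        funext z; rw [prod_insert hi]
      rw [e1, sum_insert hi]
      exact h1
  have hsum : ∀ (s : Finset (ι ⊕ ι →₀ ℕ)) (G : (ι ⊕ ι →₀ ℕ) → (ι → ℂ) → ℂ) (ψ : κ → ℤ),
      (∀ d ∈ s, Apx b (G d) ψ) → Apx b (fun z => ∑ d ∈ s, G d z) ψ := by
    intro s G ψ hG
    induction s using Finset.induction_on with
    | empty => simpa using c0 ψ
    | insert d s hd ih =>
      have h1 := cadd _ _ _ (hG d (mem_insert_self d s))
        (ih (fun x hx => hG x (mem_insert_of_mem hx)))
      have e1 : (fun z => ∑ j ∈ insert d s, G j z) = fun z => G d z + ∑ j ∈ s, G j z := by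
        funext z; rw [sum_insert hd]
      rw [e1]
      exact h1
  have hterm : ∀ (c : ℂ) (α γ : ι → ℕ), Apx b (fun z => c * ((∏ i, z i ^ α i) *
      ∏ i, (starRingEnd ℂ) (z i) ^ γ i))
      (fun k => ∑ i with b i = k, ((α i : ℤ) - (γ i : ℤ))) := by
    intro c α γ
    have h1 := hprod univ (fun i z => z i ^ α i) _ (fun i => hpow _ _ (hz i) (α i))
    have h2 := hprod univ (fun i z => (starRingEnd ℂ) (z i) ^ γ i) _
      (fun i => hpow _ _ (hzc i) (γ i))
    have h3 := cmul _ _ _ _ (hc c) (cmul _ _ _ _ h1 h2)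
    have e1 : (0 + (∑ i, α i • (fun k => if b i = k then (1 : ℤ) else 0) +
        ∑ i, γ i • (fun k => if b i = k then (-1 : ℤ) else 0)) : κ → ℤ) =
        fun k => ∑ i with b i = k, ((α i : ℤ) - (γ i : ℤ)) := by
      funext k
      rw [zero_add, Pi.add_apply, Finset.sum_apply, Finset.sum_apply, ← sum_add_distrib,
        sum_filter]
      refine sum_congr rfl (fun i _ => ?_)
      rw [Pi.smul_apply, Pi.smul_apply]
      split_ifs <;> simp [sub_eq_add_neg]
    rw [e1] at h3
    exact h3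
  have hev : ∀ z, evc F z = ∑ d ∈ F.support, coeff d F * ((∏ i, z i ^ d (Sum.inl i)) *
      ∏ i, (starRingEnd ℂ) (z i) ^ d (Sum.inr i)) := by
    intro z
    rw [evc, MvPolynomial.eval_eq']
    refine sum_congr rfl (fun d _ => ?_)
    rw [Fintype.prod_sum_type]
    simp
  constructor
  · have e1 : evc F = fun z => ∑ d ∈ F.support, coeff d F * ((∏ i, z i ^ d (Sum.inl i)) *
      ∏ i, (starRingEnd ℂ) (z i) ^ d (Sum.inr i)) := funext hev
    rw [e1]
    apply hsum
    intro d hd
    have h1 := hterm (coeff d F) (fun i => d (Sum.inl i)) (fun i => d (Sum.inr i))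
    have e2 : (fun k => ∑ i with b i = k, ((d (Sum.inl i) : ℤ) - (d (Sum.inr i) : ℤ))) = χ :=
      funext (fun k => hF d hd k)
    rw [e2] at h1
    exact h1
  · have e1 : (fun z => (starRingEnd ℂ) (evc F z)) = fun z => ∑ d ∈ F.support,
      (starRingEnd ℂ) (coeff d F) * ((∏ i, z i ^ d (Sum.inr i)) *
      ∏ i, (starRingEnd ℂ) (z i) ^ d (Sum.inl i)) := by
      funext z
      rw [hev, map_sum]
      refine sum_congr rfl (fun d _ => ?_)
      simp only [map_mul, map_prod, map_pow, Complex.conj_conj]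
      ring
    rw [e1]
    apply hsum
    intro d hd
    have h1 := hterm ((starRingEnd ℂ) (coeff d F)) (fun i => d (Sum.inr i))
      (fun i => d (Sum.inl i))
    have e2 : (fun k => ∑ i with b i = k, ((d (Sum.inr i) : ℤ) - (d (Sum.inl i) : ℤ))) = -χ := by
      funext k
      rw [Pi.neg_apply, ← hF d hd k, ← sum_neg_distrib]
      exact sum_congr rfl (fun i _ => by ring)
    rw [e2] at h1
    exact h1

end Pool.Agent.Helper39.BU
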